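import Pool.Agent.ACK.StmtsA

/-! Row MTE of squad ACK: the two mates of an edge. -/

set_option autoImplicit false

namespace Pool.Agent.ACK.H58

open Pool.Agent.ACK

/-- row MTE -/
theorem mte : MteStmt := by
  classical
  intro n _ w s hG hL
  choose π hne hw huq using hG
  have hππ : ∀ i, π (π i) = i := by
    intro i
    rcases huq (π i) i (hw i).symm with h | h
    · exact absurd h.symm (hne i)
    · exact h.symm
  have heq : ∀ i j, w j = w i → j ≠ i → j = π i := by
    intro i j h h'
    rcases huq i j h with h1 | h1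
    · exact absurd h1 h'
    · exact h1
  let f : ZMod n → ZMod n := fun p => if s (w p) = true then π p - 1 else π p
  let g : ZMod n → ZMod n := fun p => if s (w (p + 1)) = true then π (p + 1) else π (p + 1) - 1
  have ft : ∀ p, s (w p) = true → f p = π p - 1 := fun p h => if_pos h
  have ff : ∀ p, s (w p) = false → f p = π p := fun p h => if_neg (by rw [h]; simp)
  have gt : ∀ p, s (w (p + 1)) = true → g p = π (p + 1) := fun p h => if_pos h
  have gf : ∀ p, s (w (p + 1)) = false → g p = π (p + 1) - 1 :=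
    fun p h => if_neg (by rw [h]; simp)
  have hf1 : ∀ p, f p ≠ p := by
    intro p hp
    rcases Bool.eq_false_or_eq_true (s (w p)) with h | h
    · rw [ft p h] at hp
      have h1 : π p = p + 1 := by rw [sub_eq_iff_eq_add] at hp; exact hp
      exact hL p (by rw [← h1, hw p])
    · rw [ff p h] at hp
      exact hne p hp
  have hg1 : ∀ p, g p ≠ p := by
    intro p hp
    rcases Bool.eq_false_or_eq_true (s (w (p + 1))) with h | h
    · rw [gt p h] at hp
      have h1 := hw (p + 1)
      rw [hp] at h1
      exact hL p h1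
    · rw [gf p h] at hp
      have h1 : π (p + 1) = p + 1 := by rw [sub_eq_iff_eq_add] at hp; exact hp
      exact hne (p + 1) h1
  refine ⟨f, g, fun p => ⟨hf1 p, hg1 p⟩, fun p => ⟨?_, ?_⟩, ?_, ?_, ?_, ?_⟩
  · rcases Bool.eq_false_or_eq_true (s (w p)) with h | h
    · refine Quot.sound ⟨π p, p, hne p, hw p, Or.inl ⟨?_, ft p h, rfl⟩⟩
      rw [hw p]; exact h
    · refine Quot.sound ⟨π p, p, hne p, hw p, Or.inr ⟨?_, Or.inr ⟨ff p h, rfl⟩⟩⟩
      rw [hw p]; exact h
  · rcases Bool.eq_false_or_eq_true (s (w (p + 1))) with h | h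
    · refine (Quot.sound ⟨p + 1, π (p + 1), (hne (p + 1)).symm, (hw (p + 1)).symm,
        Or.inl ⟨h, ?_, gt p h⟩⟩).symm
      rw [add_sub_cancel_right]
    · refine Quot.sound ⟨π (p + 1), p + 1, hne (p + 1), hw (p + 1),
        Or.inr ⟨?_, Or.inl ⟨gf p h, ?_⟩⟩⟩
      · rw [hw (p + 1)]; exact h
      · rw [add_sub_cancel_right]
  · rintro p q ⟨i, j, hij, hwij, h⟩
    have hj : j = π i := heq i j hwij.symm (Ne.symm hij)
    have hi : i = π j := by rw [hj, hππ]
    rcases h with ⟨hs, hp, hq⟩ | ⟨hs, ⟨hp, hq⟩ | ⟨hp, hq⟩⟩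
    · have hp1 : p + 1 = i := by rw [hp, sub_add_cancel]
      have hsq : s (w q) = true := by rw [hq, ← hwij]; exact hs
      refine ⟨Or.inr ?_, Or.inl ?_⟩
      · rw [gt p (by rw [hp1]; exact hs), hp1, hq, hj]
      · rw [ft q hsq, hq, ← hi, hp]
    · have hp1 : p + 1 = i := by rw [hp, sub_add_cancel]
      have hq1 : q + 1 = j := by rw [hq, sub_add_cancel]
      refine ⟨Or.inr ?_, Or.inr ?_⟩
      · rw [gf p (by rw [hp1]; exact hs), hp1, hq, ← hj]
      · rw [gf q (by rw [hq1, ← hwij]; exact hs), hq1, ← hi, hp]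
    · refine ⟨Or.inl ?_, Or.inl ?_⟩
      · rw [ff p (by rw [hp]; exact hs), hp, hq, hj]
      · rw [ff q (by rw [hq, ← hwij]; exact hs), hq, ← hi, hp]
  · intro p
    rcases Bool.eq_false_or_eq_true (s (w p)) with h | h
    · right
      have h1 : f p + 1 = π p := by rw [ft p h, sub_add_cancel]
      rw [gt (f p) (by rw [h1, hw p]; exact h), h1, hππ]
    · left
      have h1 : f p = π p := ff p h
      rw [ff (f p) (by rw [h1, hw p]; exact h), h1, hππ]
  · intro p
    rcases Bool.eq_false_or_eq_true (s (w (p + 1))) with h | h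
    · left
      have h1 : g p = π (p + 1) := gt p h
      rw [ft (g p) (by rw [h1, hw (p + 1)]; exact h), h1, hππ, add_sub_cancel_right]
    · right
      have h1 : g p + 1 = π (p + 1) := by rw [gf p h, sub_add_cancel]
      rw [gf (g p) (by rw [h1, hw (p + 1)]; exact h), h1, hππ, add_sub_cancel_right]
  · intro p q
    constructor
    · rintro ⟨hpq, h | h⟩
      · obtain ⟨h1, h2, h3, h4⟩ := h
        have h5 : q = π p := heq p q h3 (Ne.symm hpq)
        have h6 : q + 1 = π (p + 1) :=
          heq (p + 1) (q + 1) h4 fun h => hpq (add_right_cancel h).symm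
        refine ⟨?_, ?_⟩
        · rw [ff p h1, h5]
        · rw [gf p h2, ← h6, add_sub_cancel_right]
      · obtain ⟨h1, h2, h3, h4, h5, h6⟩ := h
        have h7 : q = π (p + 1) := heq (p + 1) q h3 (Ne.symm h6)
        have h8 : q + 1 = π p := heq p (q + 1) h4 h5
        refine ⟨?_, ?_⟩
        · rw [ft p h1, ← h8, add_sub_cancel_right]
        · rw [gt p h2, h7]
    · rintro ⟨h1, h2⟩
      refine ⟨fun h => hf1 p (h1.trans h.symm), ?_⟩
      rcases Bool.eq_false_or_eq_true (s (w p)) with h | h <;>
        rcases Bool.eq_false_or_eq_true (s (w (p + 1))) with h' | h'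
      · right
        rw [ft p h] at h1
        rw [gt p h'] at h2
        have h3 : q + 1 = π p := by rw [← h1, sub_add_cancel]
        refine ⟨h, h', ?_, ?_, ?_, ?_⟩
        · rw [← h2, hw (p + 1)]
        · rw [h3, hw p]
        · rw [h3]; exact hne p
        · rw [← h2]; exact (hne (p + 1)).symm
      · exfalso
        rw [ft p h] at h1
        rw [gf p h'] at h2
        have h3 : π p = π (p + 1) := sub_left_inj.1 (h1.trans h2.symm)
        apply hL p
        rw [← hw p, h3, hw (p + 1)]
      · exfalso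
        rw [ff p h] at h1
        rw [gt p h'] at h2
        have h3 : π p = π (p + 1) := h1.trans h2.symm
        apply hL p
        rw [← hw p, h3, hw (p + 1)]
      · left
        rw [ff p h] at h1
        rw [gf p h'] at h2
        refine ⟨h, h', ?_, ?_⟩
        · rw [← h1, hw p]
        · have h3 : q + 1 = π (p + 1) := by rw [← h2, sub_add_cancel]
          rw [h3, hw (p + 1)]

end Pool.Agent.ACK.H58
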